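import Pool.Agent.H.MP_0234e1_an.C

set_option autoImplicit false
open Polynomial Real

namespace Pool.Agent.H.MP_8e1908_an
open Pool.Agent.H.MP_0234e1_an

/-- Two-sided estimate of the value of the polynomial at `c`. -/
lemma est {N : ℕ} (z : Fin (N + 1) → ℂ) (w : Fin N → ℂ) (c : ℂ)
    (h : derivative (∏ k, (X - C (z k))) = C ((N : ℂ) + 1) * ∏ j, (X - C (w j)))
    {η H : ℝ} (h0 : 0 < η) (h1 : η < 1) (hN : 256 / η ^ 3 ≤ N) (hH : 0 < H) (k₀ : Fin (N + 1))
    (hcon : ∀ j, H ≤ ‖z k₀ - w j‖) (hc : ∀ j, ‖w j - c‖ ≤ (1 - η) * ‖z k₀ - w j‖) :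
    H * exp (-((N + 1) * η)) * ∏ j, ‖z k₀ - w j‖ ≤ ∏ k, ‖c - z k‖ ∧
      ∏ k, ‖c - z k‖ ≤ ‖c - z k₀‖ * (N + 1) * ∏ j, ‖z k₀ - w j‖ := by
  obtain ⟨n1, n2⟩ := numeric h0 h1 hN
  have hd : ∀ j, z k₀ - w j ≠ 0 := fun j => norm_pos_iff.1 (hH.trans_le (hcon j))
  set L := c - z k₀ with hL
  set v : Fin N → ℂ := fun j => -L / (z k₀ - w j) with hv
  have hy1 : ∀ j, ‖1 - v j‖ ≤ 1 - η := fun j => by
    have : 1 - v j = -(w j - c) / (z k₀ - w j) := by
      have := hd j
      simp only [hv, hL]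
      field_simp
      ring
    rw [this, norm_div, norm_neg, div_le_iff₀ (norm_pos_iff.2 (hd j))]
    exact hc j
  have hN0 : (0 : ℝ) ≤ N := N.cast_nonneg
  have hy : ∑ j, ‖1 - v j‖ ≤ N * (1 - η) := by
    simpa [mul_sub] using Finset.sum_le_sum (s := Finset.univ) fun j _ => hy1 j
  have hc := core v (κ := η * N - 1) (by linarith) (by rw [Fintype.card_fin]; nlinarith)
  rw [Fintype.card_fin] at hc
  have hc2 : 4 * (∑ j, ‖1 - v j‖) / (η * N - 1 - 1) ^ 2 ≤ 4 * (N + 1) / (η * N - 1 - 1) ^ 2 :=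
    div_le_div_of_nonneg_right (by nlinarith) (sq_nonneg _)
  have hI1 : ‖∫ t in (0:ℝ)..1, ∏ j, (1 - (t : ℂ) * v j)‖ ≤ 1 * |1 - 0| := by
    refine intervalIntegral.norm_integral_le_of_norm_le_const fun t ht => ?_
    rw [Set.uIoc_of_le zero_le_one] at ht
    rw [norm_prod]
    refine Finset.prod_le_one (fun _ _ => norm_nonneg _) fun j _ => ?_
    have : 1 - (t : ℂ) * v j = ((1 - t : ℝ) : ℂ) + t * (1 - v j) := by push_cast; ring
    rw [this]
    refine (norm_add_le _ _).trans ?_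
    rw [norm_mul, Complex.norm_real, Complex.norm_real, Real.norm_of_nonneg ht.1.le,
      Real.norm_of_nonneg (by linarith [ht.2])]
    nlinarith [hy1 j, ht.1]
  set I := ∫ t in (0:ℝ)..1, ∏ j, (1 - (t : ℂ) * v j) with hI
  have hF : ∏ k, (c - z k) = L * (N + 1) * (∏ j, (z k₀ - w j)) * I := by
    have hD : ∀ t : ℝ, HasDerivAt (fun t : ℝ => (∏ k, (X - C (z k))).eval (z k₀ + t * L))
        (L * (N + 1) * (∏ j, (z k₀ - w j)) * ∏ j, (1 - (t : ℂ) * v j)) t := by
      intro t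
      have a1 : HasDerivAt (fun s : ℂ => z k₀ + s * L) L t := by
        simpa using ((hasDerivAt_id (t : ℂ)).mul_const L).const_add (z k₀)
      have a2 := (((∏ k, (X - C (z k))).hasDerivAt (z k₀ + t * L)).comp (t : ℂ) a1).comp_ofReal
      refine HasDerivAt.congr_deriv a2 ?_
      rw [h, mul_assoc _ (∏ j, (z k₀ - w j)), ← Finset.prod_mul_distrib]
      simp only [eval_mul, eval_C, eval_prod, eval_sub, eval_X]
      rw [Finset.prod_congr rfl (g := fun j => (z k₀ - w j) * (1 - (t : ℂ) * v j)) fun j _ => by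
        have := hd j
        simp only [hv]
        field_simp
        ring]
      ring
    have := intervalIntegral.integral_eq_sub_of_hasDerivAt (a := 0) (b := 1) (fun t _ => hD t)
      (Continuous.intervalIntegrable (by fun_prop) _ _)
    rw [intervalIntegral.integral_const_mul] at this
    rw [this]
    simp only [eval_prod, eval_sub, eval_X, eval_C, Complex.ofReal_one, one_mul,
      Complex.ofReal_zero, zero_mul, add_zero, hL, add_sub_cancel]
    rw [Finset.prod_eq_zero (f := fun k => z k₀ - z k) (Finset.mem_univ k₀) (sub_self _), sub_zero]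
  have u3 : H * ‖∑ j, v j‖ ≤ ‖L‖ * (N + 1) := by
    have : ‖∑ j, v j‖ ≤ ∑ _j : Fin N, ‖L‖ / H :=
      (norm_sum_le _ _).trans (Finset.sum_le_sum fun j _ => by
        simp only [hv, norm_div, norm_neg]
        exact div_le_div_of_nonneg_left (norm_nonneg _) hH (hcon j))
    rw [Finset.sum_const, Finset.card_univ, Fintype.card_fin, nsmul_eq_mul, ← mul_div_assoc,
      le_div_iff₀ hH] at this
    nlinarith [norm_nonneg L]
  have u4 : ‖(N : ℂ) + 1‖ = N + 1 := by exact_mod_cast Complex.norm_natCast (N + 1)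
  rw [← norm_prod _ (fun k => c - z k), hF, norm_mul, norm_mul, norm_mul, u4, norm_prod]
  rw [norm_mul] at hc
  have hD : 0 ≤ ∏ j, ‖z k₀ - w j‖ := by positivity
  constructor
  · calc _ ≤ H * (‖∑ j, v j‖ * ‖I‖) * ∏ j, ‖z k₀ - w j‖ := by gcongr; linarith
      _ = H * ‖∑ j, v j‖ * (∏ j, ‖z k₀ - w j‖) * ‖I‖ := by ring
      _ ≤ _ := by gcongr
  · exact mul_le_of_le_one_right (by positivity) (by simpa using hI1)

/-- Comparison of the reciprocal polynomials of `F` and `F'` at a real point. -/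
lemma recip {N : ℕ} (z : Fin (N + 1) → ℂ) (w : Fin N → ℂ)
    (h : derivative (∏ k, (X - C (z k))) = C ((N : ℂ) + 1) * ∏ j, (X - C (w j)))
    (hz : ∀ k, ‖z k‖ ≤ 1) {c : ℝ} (h0 : 0 < c) (h1 : c < 1) :
    (1 - c) * ∏ j, ‖1 - c * w j‖ ≤ ∏ k, ‖1 - c * z k‖ ∧
      ∏ k, ‖1 - c * z k‖ ≤ 2 * ∏ j, ‖1 - c * w j‖ := by
  have hc : (c : ℂ) ≠ 0 := by exact_mod_cast h0.ne'
  have hcz : ∀ k, ‖(c : ℂ) * z k‖ ≤ c := fun k => by
    rw [norm_mul, Complex.norm_real, Real.norm_of_nonneg h0.le]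
    exact mul_le_of_le_one_right h0.le (hz k)
  have hl : ∀ k, 1 - c ≤ ‖1 - c * z k‖ := fun k => by
    have := norm_sub_norm_le (1 : ℂ) (c * z k)
    rw [norm_one] at this
    linarith [hcz k]
  have hne : ∀ k, 1 - c * z k ≠ 0 := fun k => norm_pos_iff.1 (by linarith [hl k])
  have h2 := congrArg (fun p => (c : ℂ) ^ N * eval (c : ℂ)⁻¹ p) h
  simp only [derivative_prod_finset, eval_finsetSum, eval_mul, eval_prod, eval_sub, eval_X, eval_C,
    derivative_sub, derivative_X, derivative_C, sub_zero, mul_one] at h2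
  have e : ∀ u : ℂ, (c : ℂ)⁻¹ - u = (c : ℂ)⁻¹ * (1 - c * u) := fun u => by field_simp
  have h3 : (∏ k, (1 - c * z k)) * ∑ k, (1 - c * z k)⁻¹ = (N + 1) * ∏ j, (1 - c * w j) := by
    simp only [e, Finset.prod_mul_distrib, Finset.prod_const, Finset.card_univ, Fintype.card_fin,
      Finset.card_erase_of_mem (Finset.mem_univ _), Nat.add_sub_cancel, ← Finset.mul_sum] at h2
    rw [mul_left_comm ((N : ℂ) + 1), ← mul_assoc, ← mul_assoc, ← mul_pow, mul_inv_cancel₀ hc,
      one_pow, one_mul, one_mul] at h2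
    rw [← h2, Finset.mul_sum]
    refine Finset.sum_congr rfl fun k _ => ?_
    rw [← Finset.mul_prod_erase _ _ (Finset.mem_univ k)]
    have := hne k
    field_simp
  have u4 : ‖(N : ℂ) + 1‖ = N + 1 := by exact_mod_cast Complex.norm_natCast (N + 1)
  have h4 := congrArg norm h3
  rw [norm_mul, norm_mul, norm_prod, norm_prod, u4] at h4
  have hN : (0 : ℝ) < N + 1 := by positivity
  have s1 : (1 - c) * ‖∑ k, (1 - c * z k)⁻¹‖ ≤ N + 1 := by
    refine (mul_le_mul_of_nonneg_left (norm_sum_le _ _) (by linarith)).trans ?_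
    rw [Finset.mul_sum]
    refine (Finset.sum_le_sum (g := fun _ => (1 : ℝ)) fun k _ => ?_).trans (by simp)
    rw [norm_inv, ← div_eq_mul_inv, div_le_one (by linarith [hl k])]
    exact hl k
  have s2 : N + 1 ≤ 2 * ‖∑ k, (1 - c * z k)⁻¹‖ := by
    refine le_trans ?_ (mul_le_mul_of_nonneg_left (Complex.re_le_norm _) zero_le_two)
    rw [Complex.re_sum, Finset.mul_sum]
    refine le_trans (by simp) (Finset.sum_le_sum (f := fun _ => (1 : ℝ)) fun k _ => ?_)
    have a1 := pow_le_pow_left₀ (norm_nonneg _) ((hcz k).trans h1.le) 2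
    rw [Complex.sq_norm, Complex.normSq_apply] at a1
    rw [Complex.inv_re, ← mul_div_assoc, le_div_iff₀ (Complex.normSq_pos.2 (hne k)),
      Complex.normSq_apply]
    simp only [Complex.sub_re, Complex.one_re, Complex.sub_im, Complex.one_im]
    nlinarith
  have p1 : 0 ≤ ∏ k, ‖1 - c * z k‖ := by positivity
  constructor
  · refine le_of_mul_le_mul_left ?_ hN
    nlinarith [mul_le_mul_of_nonneg_left s1 p1]
  · refine le_of_mul_le_mul_left ?_ hN
    nlinarith [mul_le_mul_of_nonneg_left s2 p1]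

end Pool.Agent.H.MP_8e1908_an
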