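import Pool.Agent.H.MP_8e1908_an.A

set_option autoImplicit false
open Polynomial Real

namespace Pool.Agent.H.MP_8e1908_an
open Pool.Agent.H.MP_0234e1_an

lemma nsq (u : ℂ) : ‖u‖ ^ 2 = u.re ^ 2 + u.im ^ 2 := by
  rw [Complex.sq_norm, Complex.normSq_apply]; ring

lemma g1 {a t : ℝ} {w : ℂ} (h1 : a ^ 2 ≤ 1) (ht : t = 5 / 8 ∨ t = 7 / 8) (hw : ‖w‖ ≤ 1)
    (hD : 1 - a ^ 2 / 4 ≤ ‖a - w‖ ^ 2) : ‖w - (t * a : ℝ)‖ ≤ (1 - a ^ 2 / 40) * ‖a - w‖ := by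
  refine (abs_le_of_sq_le_sq' ?_ (mul_nonneg (by linarith) (norm_nonneg _))).2
  have e : ‖w - (t * a : ℝ)‖ ^ 2 = (1 - t) * ‖w‖ ^ 2 + t * ‖a - w‖ ^ 2 - t * (1 - t) * a ^ 2 := by
    simp only [nsq, Complex.sub_re, Complex.sub_im, Complex.ofReal_re, Complex.ofReal_im]
    ring
  have hw2 : ‖w‖ ^ 2 ≤ 1 := pow_le_one₀ (norm_nonneg _) hw
  rw [e, mul_pow]
  generalize ‖a - w‖ ^ 2 = D at *
  generalize ‖w‖ ^ 2 = W at *
  have ha := sq_nonneg a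
  generalize a ^ 2 = s at *
  have hD0 : 0 ≤ D := by linarith
  have := mul_nonneg hD0 (sq_nonneg s)
  rcases ht with rfl | rfl
  · nlinarith [mul_le_mul_of_nonneg_left hD (by linarith : 0 ≤ 3 / 8 - s / 20)]
  · nlinarith [mul_le_mul_of_nonneg_left hD (by linarith : 0 ≤ 1 / 8 - s / 20)]

lemma g2 {a : ℝ} {w : ℂ} (h0 : 0 < a) (h1 : a < 1) (hw : ‖w‖ ≤ 1)
    (hD : 1 - a ^ 2 * (1 - a ^ 2) / 4 ≤ ‖a - w‖ ^ 2) :
    ‖1 - ((5 / 8 * a : ℝ) : ℂ) * w‖ ≤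
      (1 - a ^ 2 * (1 - a ^ 2) / 128) * ‖1 - ((7 / 8 * a : ℝ) : ℂ) * w‖ := by
  have ha : a ^ 2 < 1 := by nlinarith
  have hθ : 0 ≤ a ^ 2 * (1 - a ^ 2) := mul_nonneg (sq_nonneg _) (by linarith)
  refine (abs_le_of_sq_le_sq' ?_ (mul_nonneg (by nlinarith) (norm_nonneg _))).2
  have hw2 : ‖w‖ ^ 2 ≤ 1 := pow_le_one₀ (norm_nonneg _) hw
  have hA : ‖1 - ((7 / 8 * a : ℝ) : ℂ) * w‖ ≤ 2 := by
    refine (norm_sub_le _ _).trans ?_
    rw [norm_one, norm_mul, Complex.norm_real, Real.norm_of_nonneg (by positivity)]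
    nlinarith [norm_nonneg w]
  have hA2 := pow_le_pow_left₀ (norm_nonneg _) hA 2
  have e : ‖1 - ((5 / 8 * a : ℝ) : ℂ) * w‖ ^ 2 = ‖1 - ((7 / 8 * a : ℝ) : ℂ) * w‖ ^ 2 -
      (‖a - w‖ ^ 2 - a ^ 2 - (1 - 3 / 2 * a ^ 2) * ‖w‖ ^ 2) / 4 := by
    simp only [nsq, Complex.sub_re, Complex.sub_im, Complex.ofReal_re, Complex.ofReal_im,
      Complex.mul_re, Complex.mul_im, Complex.one_re, Complex.one_im]
    ring
  rw [e, mul_pow]
  have hA0 := sq_nonneg ‖1 - ((7 / 8 * a : ℝ) : ℂ) * w‖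
  have hW := sq_nonneg ‖w‖
  generalize ‖1 - ((7 / 8 * a : ℝ) : ℂ) * w‖ ^ 2 = A at *
  generalize ‖a - w‖ ^ 2 = D at *
  generalize ‖w‖ ^ 2 = W at *
  have ha0 := sq_nonneg a
  generalize a ^ 2 = s at *
  have k : s * (1 - s) / 4 ≤ D - s - (1 - 3 / 2 * s) * W := by
    rcases le_total (3 / 2 * s) 1 with h | h
    · nlinarith [mul_le_mul_of_nonneg_left hw2 (by linarith : 0 ≤ 1 - 3 / 2 * s)]
    · nlinarith [mul_nonneg hW (by linarith : 0 ≤ 3 / 2 * s - 1)]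
  generalize s * (1 - s) = θ at *
  nlinarith [mul_nonneg hA0 (sq_nonneg θ), mul_le_mul_of_nonneg_left hA2 hθ]

lemma g3 {c : ℝ} {z : ℂ} (h1 : c ^ 2 ≤ 1) (hz : ‖z‖ ≤ 1) : ‖c - z‖ ≤ ‖1 - c * z‖ ∧
    ∀ ρ : ℝ, 0 < ρ → ρ ≤ ‖c - z‖ → ‖1 - c * z‖ ≤ ‖c - z‖ * exp ((1 - ‖z‖) / ρ ^ 2) := by
  have e : ‖1 - c * z‖ ^ 2 = ‖c - z‖ ^ 2 + (1 - c ^ 2) * (1 - ‖z‖ ^ 2) := by
    simp only [nsq, Complex.sub_re, Complex.sub_im, Complex.ofReal_re, Complex.ofReal_im,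
      Complex.mul_re, Complex.mul_im, Complex.one_re, Complex.one_im]
    ring
  have hz2 : ‖z‖ ^ 2 ≤ 1 := pow_le_one₀ (norm_nonneg _) hz
  refine ⟨(abs_le_of_sq_le_sq' ?_ (norm_nonneg _)).2, fun ρ hρ hρ' =>
    (abs_le_of_sq_le_sq' ?_ (by positivity)).2⟩
  · nlinarith [mul_nonneg (sub_nonneg.2 h1) (sub_nonneg.2 hz2)]
  · have a1 := add_one_le_exp ((1 - ‖z‖) / ρ ^ 2)
    have a0 : 0 ≤ (1 - ‖z‖) / ρ ^ 2 := div_nonneg (by linarith) (sq_nonneg _)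
    have a2 := pow_le_pow_left₀ (by linarith) a1 2
    have a3 := pow_le_pow_left₀ hρ.le hρ' 2
    have a4 : (1 - ‖z‖) / ρ ^ 2 * ρ ^ 2 = 1 - ‖z‖ := by field_simp
    have a5 := mul_le_mul_of_nonneg_left a3 a0
    have a6 := mul_le_mul_of_nonneg_left a2 (sq_nonneg ‖c - z‖)
    rw [e, mul_pow]
    nlinarith [mul_nonneg (sq_nonneg c) (sub_nonneg.2 hz2), sq_nonneg (1 - ‖z‖),
      mul_nonneg (sq_nonneg ‖c - z‖) (sq_nonneg ((1 - ‖z‖) / ρ ^ 2))]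

lemma main {a : ℝ} (h0 : 0 < a) (h1 : a < 1) : ∃ r : ℝ, 0 < r ∧ r < 1 ∧ ∃ M : ℝ, ∀ N : ℕ,
    M ≤ N → ∀ (z : Fin (N + 1) → ℂ) (w : Fin N → ℂ),
      derivative (∏ k, (X - C (z k))) = C ((N : ℂ) + 1) * ∏ j, (X - C (w j)) →
      (∀ k, ‖z k‖ ≤ 1) → (∀ j, ‖w j‖ ≤ 1) → ∀ k₀, z k₀ = a → ∃ j, ‖a - w j‖ < r := by
  have ha : a ^ 2 < 1 := by nlinarith
  have ha0 : 0 < a ^ 2 := by positivity
  obtain ⟨β, hβ⟩ : ∃ β, β = a ^ 2 * (1 - a ^ 2) / 128 := ⟨_, rfl⟩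
  obtain ⟨ρ, hρ⟩ : ∃ ρ, ρ = a ^ 2 / 160 := ⟨_, rfl⟩
  have hβ0 : 0 < β := by rw [hβ]; exact div_pos (mul_pos ha0 (by linarith)) (by norm_num)
  have hβ1 : β ≤ a ^ 2 / 128 := by nlinarith
  have hρ0 : 0 < ρ := by linarith
  have hρ1 : ρ ^ 2 ≤ 1 := pow_le_one₀ hρ0.le (by linarith)
  obtain ⟨ε, hε⟩ : ∃ ε, ε = β * ρ ^ 2 / 6 := ⟨_, rfl⟩
  have hε0 : 0 < ε := by rw [hε]; positivity
  have hε1 : ε ≤ β / 6 := by nlinarith
  refine ⟨1 - ε, by linarith, by linarith, max (256 / ε ^ 3) (1024 / β ^ 2),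
    fun N hN z w h hz hw k₀ hk => ?_⟩
  by_contra hcon
  push Not at hcon
  have hN1 := (le_max_left _ _).trans hN
  have hN2 := (div_le_iff₀ (by positivity)).1 ((le_max_right _ _).trans hN)
  have hD : ∀ j, 1 - 2 * ε ≤ ‖a - w j‖ ^ 2 := fun j => by
    nlinarith [pow_le_pow_left₀ (by linarith) (hcon j) 2]
  have hE : ∀ c : ℂ, (∀ j, ‖w j - c‖ ≤ (1 - a ^ 2 / 80) * ‖a - w j‖) → _ := fun c hc =>
    est z w c h hε0 (by linarith) hN1 (by linarith : 0 < 1 - ε) k₀ (by rwa [hk]) (fun j => by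
      rw [hk]
      exact (hc j).trans (mul_le_mul_of_nonneg_right (by linarith) (norm_nonneg _)))
  rw [hk] at hE
  have hG : ∀ t : ℝ, (t = 5 / 8 ∨ t = 7 / 8) → ∀ c : ℂ, ‖(t * a : ℝ) - c‖ ≤ ρ →
      ∀ j, ‖w j - c‖ ≤ (1 - a ^ 2 / 80) * ‖a - w j‖ := fun t ht c hc j => by
    have b1 := g1 ha.le ht (hw j) (by linarith [hD j])
    have b2 := norm_add_le (w j - (t * a : ℝ)) ((t * a : ℝ) - c)
    rw [sub_add_sub_cancel] at b2
    nlinarith [hcon j]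
  have hDd : 0 < ∏ j, ‖a - w j‖ := Finset.prod_pos fun j _ => by linarith [hcon j]
  have hfar : ∀ k, ρ ≤ ‖(7 / 8 * a : ℝ) - z k‖ := fun k => by
    by_contra hlt
    have b1 := (hE _ (hG _ (Or.inr rfl) _ (not_le.1 hlt).le)).1
    rw [Finset.prod_eq_zero (f := fun i => ‖z k - z i‖) (Finset.mem_univ k) (by simp)] at b1
    exact absurd b1 (not_le.2 (mul_pos (mul_pos (by linarith) (exp_pos _)) hDd))
  have hsum : ∑ k, (1 - ‖z k‖) ≤ 2 * ε * (N + 1) := by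
    by_contra hlt
    obtain ⟨j, hj⟩ := key z w 0 h hε0 (by linarith) hN1 (by linarith : 0 < 1 - ε) (by
      simp only [Finset.sum_sub_distrib, Finset.sum_const, Finset.card_univ, Fintype.card_fin,
        nsmul_eq_mul, mul_one, Nat.cast_add, Nat.cast_one, sub_zero] at hlt ⊢
      nlinarith [mul_nonneg (by positivity : (0 : ℝ) ≤ N + 1) (sq_nonneg ε)]) k₀
    rw [hk] at hj
    linarith [hcon j]
  have r1 := (recip z w h hz (c := 7 / 8 * a) (by linarith) (by linarith)).1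
  have r2 := (recip z w h hz (c := 5 / 8 * a) (by linarith) (by linarith)).2
  have e1 := (hE _ (hG _ (Or.inr rfl) (7 / 8 * a : ℝ) (by simpa using hρ0.le))).2
  have e2 := (hE _ (hG _ (Or.inl rfl) (5 / 8 * a : ℝ) (by simpa using hρ0.le))).1
  have s1 : ∏ k, ‖1 - ((7 / 8 * a : ℝ) : ℂ) * z k‖ ≤
      (∏ k, ‖(7 / 8 * a : ℝ) - z k‖) * exp (β / 3 * (N + 1)) := by
    refine (Finset.prod_le_prod (fun _ _ => norm_nonneg _) fun k _ =>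
      (g3 (by nlinarith) (hz k)).2 ρ hρ0 (hfar k)).trans ?_
    rw [Finset.prod_mul_distrib, ← exp_sum, ← Finset.sum_div]
    gcongr
    rw [div_le_iff₀ (by positivity)]
    refine hsum.trans (le_of_eq ?_)
    rw [hε]
    ring
  have s2 : ∏ k, ‖(5 / 8 * a : ℝ) - z k‖ ≤ ∏ k, ‖1 - ((5 / 8 * a : ℝ) : ℂ) * z k‖ :=
    Finset.prod_le_prod (fun _ _ => norm_nonneg _) fun k _ => (g3 (by nlinarith) (hz k)).1
  have s3 : ∏ j, ‖1 - ((5 / 8 * a : ℝ) : ℂ) * w j‖ ≤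
      exp (-(β * N)) * ∏ j, ‖1 - ((7 / 8 * a : ℝ) : ℂ) * w j‖ := by
    refine (Finset.prod_le_prod (fun _ _ => norm_nonneg _)
      (g := fun j => exp (-β) * ‖1 - ((7 / 8 * a : ℝ) : ℂ) * w j‖) fun j _ =>
        (g2 h0 h1 (hw j) (by linarith [hD j])).trans ?_).trans (le_of_eq ?_)
    · exact mul_le_mul_of_nonneg_right (by linarith [add_one_le_exp (-β)]) (norm_nonneg _)
    · rw [Finset.prod_mul_distrib, Finset.prod_const, Finset.card_univ, Fintype.card_fin,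
        ← exp_nat_mul]
      ring_nf
  have s4 : ‖((7 / 8 * a : ℝ) : ℂ) - a‖ ≤ 1 := by
    rw [← Complex.ofReal_sub, Complex.norm_real, Real.norm_eq_abs, abs_le]
    constructor <;> linarith
  have hN0 : (0 : ℝ) ≤ N := N.cast_nonneg
  have s5 : exp (-(β / 6 * (N + 1))) ≤ exp (-((N + 1) * ε)) := exp_le_exp.2 (by nlinarith)
  have p1 : 0 ≤ ∏ j, ‖1 - ((7 / 8 * a : ℝ) : ℂ) * w j‖ := by positivity
  generalize ∏ j, ‖1 - ((7 / 8 * a : ℝ) : ℂ) * w j‖ = P at *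
  generalize ∏ j, ‖a - w j‖ = D at *
  have t1 : P ≤ 8 * ((N + 1) * D * exp (β / 3 * (N + 1))) := by
    have : (∏ k, ‖(7 / 8 * a : ℝ) - z k‖) * exp (β / 3 * (N + 1)) ≤
        1 * (N + 1) * D * exp (β / 3 * (N + 1)) :=
      mul_le_mul_of_nonneg_right (e1.trans (by gcongr)) (exp_pos _).le
    nlinarith
  have t2 : 1 / 2 * exp (-(β / 6 * (N + 1))) * D ≤ 2 * (exp (-(β * N)) * P) := by
    refine le_trans ?_ (e2.trans (s2.trans (r2.trans (by linarith))))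
    exact mul_le_mul_of_nonneg_right (mul_le_mul (by linarith) s5 (exp_pos _).le (by linarith))
      hDd.le
  have t3 : exp (-(β / 6 * (N + 1))) * D ≤
      32 * (N + 1) * (exp (-(β * N)) * exp (β / 3 * (N + 1))) * D := by
    nlinarith [mul_le_mul_of_nonneg_left t1 (exp_pos (-(β * N))).le]
  have t4 := mul_le_mul_of_nonneg_right (le_of_mul_le_mul_right t3 hDd)
    (exp_pos (β * N - β / 3 * (N + 1))).le
  rw [mul_assoc, ← exp_add, ← exp_add, ← exp_add,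
    show -(β * N) + β / 3 * (N + 1) + (β * N - β / 3 * (N + 1)) = 0 by ring, exp_zero,
    show -(β / 6 * (N + 1)) + (β * N - β / 3 * (N + 1)) = β * (N - 1) / 2 by ring] at t4
  have hN3 : (3 : ℝ) ≤ N := by
    by_contra hlt
    have : β ^ 2 ≤ 1 := pow_le_one₀ hβ0.le (by linarith)
    nlinarith
  have t5 := quadratic_le_exp_of_nonneg (x := β * (N - 1) / 2)
    (div_nonneg (mul_nonneg hβ0.le (by linarith)) zero_le_two)
  have t6 : 0 ≤ β * (N - 1) := mul_nonneg hβ0.le (by linarith)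
  have t7 : (2 / 3 * N) ^ 2 ≤ ((N : ℝ) - 1) ^ 2 := pow_le_pow_left₀ (by positivity) (by linarith) 2
  have t8 := mul_le_mul_of_nonneg_left t7 (sq_nonneg β)
  have t9 := mul_le_mul_of_nonneg_left hN2 hN0
  nlinarith

end Pool.Agent.H.MP_8e1908_an
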